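import Mathlib

set_option autoImplicit false

namespace Pool.Agent.H.MP_293fea_co

def w (d : ℕ) : ℤ := if d = 1 then 1 else if d = 3 then -1 else 0

def W (n : ℕ) : ℤ := if h : n = 0 then 0 else w (n % 5) + W (n / 5)
decreasing_by omega

def ε (n : ℕ) : ℤ := if h : n < 5 then (if n = 2 ∨ n = 3 then -1 else 1) else ε (n / 5)
decreasing_by omega

lemma W0 : W 0 = 0 := by rw [W]; simp

lemma W5 (a d : ℕ) (hd : d < 5) : W (5 * a + d) = w d + W a := by
  rw [W]
  split_ifs with h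
  · have h1 : a = 0 := by omega
    have h2 : d = 0 := by omega
    rw [h1, h2, W0]; rfl
  · rw [show (5 * a + d) % 5 = d by omega, show (5 * a + d) / 5 = a by omega]

lemma ε5 (a d : ℕ) (ha : 1 ≤ a) (hd : d < 5) : ε (5 * a + d) = ε a := by
  rw [ε, dif_neg (by omega), show (5 * a + d) / 5 = a by omega]

lemma εs (d : ℕ) (hd : d < 5) : ε d = if d = 2 ∨ d = 3 then -1 else 1 := by
  rw [ε, dif_pos hd]

lemma Ws (d : ℕ) (hd : d < 5) : W d = w d := by
  have := W5 0 d hd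
  rw [W0] at this
  simpa using this

lemma ε_pm (n : ℕ) : ε n = 1 ∨ ε n = -1 := by
  induction n using Nat.strong_induction_on with
  | _ n ih =>
    rw [ε]
    split_ifs with h1 h2
    · exact Or.inr rfl
    · exact Or.inl rfl
    · exact ih _ (by omega)

def T (n : ℕ) : ℤ := W (n + 1) - W n

lemma T5 (a d : ℕ) (hd : d < 4) : T (5 * a + d) = w (d + 1) - w d := by
  rw [T, add_assoc, W5 _ _ (by omega), W5 _ _ (by omega)]; ring

lemma T4 (a : ℕ) : T (5 * a + 4) = T a := by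
  rw [T, T, show 5 * a + 4 + 1 = 5 * (a + 1) + 0 by ring, W5 _ _ (by omega), W5 _ _ (by omega)]
  simp [w]

lemma step (n : ℕ) : (T n = 1 ∨ T n = -1) ∧ (ε (n + 1) ≠ ε n → W (n + 1) = 0) := by
  induction n using Nat.strong_induction_on with
  | _ n ih =>
    obtain ⟨a, d, hd, rfl⟩ : ∃ a d, d < 5 ∧ n = 5 * a + d := ⟨n / 5, n % 5, by omega, by omega⟩
    rcases Nat.lt_succ_iff_lt_or_eq.1 hd with hd | rfl
    · refine ⟨by rw [T5 _ _ hd]; interval_cases d <;> simp [w], fun h => ?_⟩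
      rcases Nat.eq_zero_or_pos a with rfl | ha
      · simp only [mul_zero, zero_add] at h ⊢
        rw [εs _ (by omega), εs _ (by omega)] at h
        rw [Ws _ (by omega)]
        interval_cases d <;> simp [w] at h ⊢
      · rw [add_assoc, ε5 _ _ ha (by omega), ε5 _ _ ha (by omega)] at h
        exact absurd rfl h
    · obtain ⟨h1, h2⟩ := ih a (by omega)
      refine ⟨by rwa [T4], fun h => ?_⟩
      rw [show 5 * a + 4 + 1 = 5 * (a + 1) + 0 by ring] at h ⊢
      rw [ε5 _ _ (by omega) (by omega)] at h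
      rw [W5 _ _ (by omega), h2]
      · rfl
      · rcases Nat.eq_zero_or_pos a with rfl | ha
        · rw [εs _ (by omega), εs _ (by omega)] at h
          simp at h
        · rwa [ε5 _ _ ha (by omega)] at h

def S (n : ℕ) : ℤ := ε n * W n

lemma S_step (n : ℕ) : S (n + 1) - S n = ε n * T n := by
  rw [S, S, T]
  by_cases h : ε (n + 1) = ε n
  · rw [h]; ring
  · rw [(step n).2 h]; ring

def b (z : ℤ) : Fin 2 := if z = 1 then 1 else 0

def x (n : ℕ) : Fin 2 := b (ε n * T n)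

lemma ker (e : ℕ) : ∀ r < 5 ^ e, (∀ n, 1 ≤ n → ε (5 ^ e * n + r) = ε n) ∧
    ((∀ n, T (5 ^ e * n + r) = 1) ∨ (∀ n, T (5 ^ e * n + r) = -1) ∨
      ∀ n, T (5 ^ e * n + r) = T n) := by
  induction e with
  | zero => intro r hr; obtain rfl : r = 0 := by omega
            simp
  | succ e ih =>
    intro r hr
    obtain ⟨a, d, hd, rfl⟩ : ∃ a d, d < 5 ∧ r = 5 * a + d := ⟨r / 5, r % 5, by omega, by omega⟩
    have e1 : ∀ n, 5 ^ (e + 1) * n + (5 * a + d) = 5 * (5 ^ e * n + a) + d := fun n => by ring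
    obtain ⟨h1, h2⟩ := ih a (by rw [pow_succ] at hr; omega)
    simp only [e1]
    constructor
    · intro n hn
      rw [ε5 _ _ ((Nat.mul_pos (by positivity) hn).trans_le (Nat.le_add_right _ _)) hd, h1 n hn]
    · rcases Nat.lt_succ_iff_lt_or_eq.1 hd with hd | rfl
      · simp only [T5 _ _ hd]
        interval_cases d <;> simp [w]
      · simpa only [T4] using h2

lemma ker_fin : {f : ℕ → Fin 2 | ∃ e r : ℕ, r < 5 ^ e ∧ f = fun n => x (5 ^ e * n + r)}.Finite := by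
  let base : Fin 3 → ℕ → Fin 2 := ![fun n => b (ε n * 1), fun n => b (ε n * -1), x]
  refine (Set.finite_range fun p : Fin 2 × Fin 3 =>
    fun n => if n = 0 then p.1 else base p.2 n).subset ?_
  rintro _ ⟨e, r, hr, rfl⟩
  obtain ⟨h1, h2⟩ := ker e r hr
  have key : ∀ t : Fin 3, (∀ n, 1 ≤ n → x (5 ^ e * n + r) = base t n) →
      (fun n => x (5 ^ e * n + r)) ∈ Set.range fun p : Fin 2 × Fin 3 =>
        fun n => if n = 0 then p.1 else base p.2 n := by
    intro t ht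
    refine ⟨(x r, t), funext fun n => ?_⟩
    dsimp only
    split_ifs with h
    · simp [h]
    · exact (ht n (by omega)).symm
  rcases h2 with h | h | h
  · exact key 0 fun n hn => by rw [x, h1 n hn, h]; rfl
  · exact key 1 fun n hn => by rw [x, h1 n hn, h]; rfl
  · exact key 2 fun n hn => by rw [x, h1 n hn, h]; rfl

def cnt (n i : ℕ) (c : Fin 2) : ℕ := ((Finset.range n).filter fun j => x (i + j) = c).card

lemma cnt_eq (n i : ℕ) :
    cnt n i 0 + cnt n i 1 = n ∧ 2 * (cnt n i 1 : ℤ) = S (i + n) - S i + n := by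
  induction n with
  | zero => simp [cnt]
  | succ n ih =>
    have h := S_step (i + n)
    have e : ∀ c, cnt (n + 1) i c = cnt n i c + if x (i + n) = c then 1 else 0 := by
      intro c
      simp only [cnt, Finset.range_add_one, Finset.filter_insert]
      split_ifs
      · rw [Finset.card_insert_of_notMem (by simp)]
      · rfl
    rw [e, e, ← add_assoc i n 1, x]
    rcases ε_pm (i + n) with h1 | h1 <;> rcases (step (i + n)).1 with h2 | h2 <;>
      rw [h1, h2] at h ⊢ <;> simp [b] <;> omega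

noncomputable def ρ (n : ℕ) : ℕ := Set.ncard {v : Fin 2 → ℕ | ∃ i : ℕ, v = cnt n i}

lemma ρ_eq (n : ℕ) : ρ n = Set.ncard (Set.range fun i => (cnt n i 1 : ℤ)) := by
  rw [ρ, ← Set.InjOn.ncard_image (f := fun v : Fin 2 → ℕ => (v 1 : ℤ))]
  · congr 1
    ext k
    simp only [Set.mem_image, Set.mem_ofPred_eq, Set.mem_range]
    exact ⟨fun ⟨_, ⟨i, rfl⟩, h⟩ => ⟨i, h⟩, fun ⟨i, h⟩ => ⟨_, ⟨i, rfl⟩, h⟩⟩
  · rintro _ ⟨i, rfl⟩ _ ⟨j, rfl⟩ h
    have h : cnt n i 1 = cnt n j 1 := Nat.cast_injective (R := ℤ) h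
    have h1 := (cnt_eq n i).1
    have h2 := (cnt_eq n j).1
    funext c
    fin_cases c
    · change cnt n i 0 = cnt n j 0
      omega
    · exact h

lemma ivt (k : ℕ → ℤ) (h : ∀ i, k (i + 1) ≤ k i + 1) {a c : ℕ} (hac : a ≤ c) {y : ℤ}
    (h1 : k a ≤ y) (h2 : y ≤ k c) : ∃ i, k i = y := by
  induction c, hac using Nat.le_induction with
  | base => exact ⟨a, le_antisymm h1 h2⟩
  | succ c _ ih =>
    by_cases hc : y ≤ k c
    · exact ih hc
    · exact ⟨c + 1, by have := h c; omega⟩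

lemma ρ_bd (n : ℕ) (A B : ℤ) (hA : ∃ i, S (i + n) - S i = A) (hA' : ∃ i, S (i + n) - S i = -A)
    (hB : ∀ i, |S (i + n) - S i| ≤ B) : A + 1 ≤ ρ n ∧ (ρ n : ℤ) ≤ B + 1 := by
  have hst : ∀ i, |(cnt n (i + 1) 1 : ℤ) - cnt n i 1| ≤ 1 := by
    intro i
    have h1 := (cnt_eq n i).2
    have h2 := (cnt_eq n (i + 1)).2
    have h3 := S_step i
    have h4 := S_step (i + n)
    rw [add_right_comm] at h2
    rw [abs_le]
    rcases ε_pm (i + n) with a1 | a1 <;> rcases (step (i + n)).1 with a2 | a2 <;>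
      rcases ε_pm i with a3 | a3 <;> rcases (step i).1 with a4 | a4 <;>
      rw [a1, a2] at h4 <;> rw [a3, a4] at h3 <;> omega
  have hsub : (Set.range fun i => (cnt n i 1 : ℤ)) ⊆
      ↑(Finset.Icc ((n - B + 1) / 2) ((n + B) / 2)) := by
    rintro _ ⟨i, rfl⟩
    have h1 := (cnt_eq n i).2
    have h2 := abs_le.1 (hB i)
    simp only [Finset.coe_Icc, Set.mem_Icc]
    omega
  have hB0 : 0 ≤ B := (abs_nonneg _).trans (hB 0)
  rw [ρ_eq]
  constructor
  · obtain ⟨i, hi⟩ := hA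
    obtain ⟨j, hj⟩ := hA'
    have h1 := (cnt_eq n i).2
    have h2 := (cnt_eq n j).2
    have : (↑(Finset.Icc (cnt n j 1 : ℤ) (cnt n i 1)) : Set ℤ) ⊆
        Set.range fun i => (cnt n i 1 : ℤ) := by
      intro y hy
      simp only [Finset.coe_Icc, Set.mem_Icc] at hy
      rcases le_total j i with h | h
      · exact ivt (fun i => (cnt n i 1 : ℤ)) (fun i => by have := abs_le.1 (hst i); omega) h
          hy.1 hy.2
      · obtain ⟨t, ht⟩ := ivt (fun i => -(cnt n i 1 : ℤ))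
          (fun i => by have := abs_le.1 (hst i); omega) h (y := -y) (by omega) (by omega)
        exact ⟨t, by simpa using ht⟩
    have h3 := Set.ncard_le_ncard this ((Finset.finite_toSet _).subset hsub)
    rw [Set.ncard_coe_finset, Int.card_Icc] at h3
    omega
  · have h3 := Set.ncard_le_ncard hsub (Finset.finite_toSet _)
    rw [Set.ncard_coe_finset, Int.card_Icc] at h3
    omega

lemma low (e : ℕ) : ∀ a r, r < 5 ^ e → W (5 ^ e * a + r) = W a + W r ∧ |W r| ≤ e := by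
  induction e with
  | zero => intro a r hr; obtain rfl : r = 0 := by omega
            simp [W0]
  | succ e ih =>
    intro a r hr
    obtain ⟨q, d, hd, rfl⟩ : ∃ q d, d < 5 ∧ r = 5 * q + d := ⟨r / 5, r % 5, by omega, by omega⟩
    obtain ⟨h1, h2⟩ := ih a q (by rw [pow_succ] at hr; omega)
    rw [show 5 ^ (e + 1) * a + (5 * q + d) = 5 * (5 ^ e * a + q) + d by ring, W5 _ _ hd, W5 _ _ hd,
      h1]
    refine ⟨by ring, ?_⟩
    have : |w d| ≤ 1 := by unfold w; split_ifs <;> simp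
    rw [abs_le] at *
    push_cast
    omega

def Q (e t p : ℕ) : ℕ → ℕ
  | 0 => t
  | h + 1 => 5 ^ e * Q e t p h + p

lemma Q_spec {e t p : ℕ} (ht : 1 ≤ t) (hp : p < 5 ^ e) (h : ℕ) :
    1 ≤ Q e t p h ∧ W (Q e t p h) = W t + h * W p ∧ ε (Q e t p h) = ε t := by
  induction h with
  | zero => simp [Q, ht]
  | succ h ih =>
    refine ⟨(Nat.mul_pos (by positivity) ih.1).trans_le (Nat.le_add_right _ _), ?_, ?_⟩
    · rw [Q, (low e _ p hp).1, ih.2.1]; push_cast; ring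
    · rw [Q, (ker e p hp).1 _ ih.1, ih.2.2]

lemma Q_add (e t p t' p' h : ℕ) : Q e t p h + Q e t' p' h = Q e (t + t') (p + p') h := by
  induction h with
  | zero => rfl
  | succ h ih => rw [Q, Q, Q, ← ih]; ring

lemma Q_pow (t j : ℕ) : Q 1 t 0 j = 5 ^ j * t := by
  induction j with
  | zero => simp [Q]
  | succ j ih => rw [Q, ih]; ring

def R (i : ℕ) : ℕ := Q 1 0 2 i

lemma R_odd (h : ℕ) : R (2 * h + 1) = Q 2 2 12 h := by
  induction h with
  | zero => rfl
  | succ h ih =>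
    rw [Q, ← ih, show 2 * (h + 1) + 1 = 2 * h + 1 + 1 + 1 by ring]
    simp only [R, Q]
    ring

lemma L1 (i : ℕ) : ∀ a c, c ≤ 1 → |W (a + R i + c) - W a| ≤ 2 * i + 1 := by
  induction i with
  | zero =>
    intro a c hc
    interval_cases c
    · simp [R, Q]
    · have := (step a).1
      simp only [R, Q, add_zero, T] at this ⊢
      rcases this with h | h <;> rw [h] <;> simp
  | succ i ih =>
    intro a c hc
    obtain ⟨q, d, hd, rfl⟩ : ∃ q d, d < 5 ∧ a = 5 * q + d := ⟨a / 5, a % 5, by omega, by omega⟩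
    have e : 5 * q + d + R (i + 1) + c = 5 * (q + R i + (d + 2 + c) / 5) + (d + 2 + c) % 5 := by
      simp only [R, Q]; omega
    have := ih q ((d + 2 + c) / 5) (by omega)
    rw [e, W5 _ _ (by omega), W5 _ _ hd]
    have h1 : ∀ d, |w d| ≤ 1 := fun d => by unfold w; split_ifs <;> simp
    have h2 := abs_le.1 (h1 d)
    have h3 := abs_le.1 (h1 ((d + 2 + c) % 5))
    rw [abs_le] at *
    push_cast
    omega

lemma L2 (i : ℕ) : ∀ a c, c ≤ 1 → (a = 0 ∨ ε a ≠ ε (a + R i + c)) →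
    |W (a + R i + c) + W a| ≤ i + 1 := by
  induction i with
  | zero =>
    intro a c hc h
    simp only [R, Q, add_zero] at h ⊢
    rcases h with rfl | h
    · interval_cases c
      · simp [W0]
      · simp [W0, Ws 1 (by omega), w]
    · interval_cases c
      · exact absurd rfl h
      · have h1 := (step a).1
        have h2 := (step a).2 (Ne.symm h)
        rw [T, h2] at h1
        rw [h2, abs_le]
        push_cast
        omega
  | succ i ih =>
    intro a c hc h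
    obtain ⟨q, d, hd, rfl⟩ : ∃ q d, d < 5 ∧ a = 5 * q + d := ⟨a / 5, a % 5, by omega, by omega⟩
    have e : 5 * q + d + R (i + 1) + c = 5 * (q + R i + (d + 2 + c) / 5) + (d + 2 + c) % 5 := by
      simp only [R, Q]; omega
    have := ih q ((d + 2 + c) / 5) (by omega) (by
      rcases Nat.eq_zero_or_pos q with h0 | h0
      · exact Or.inl h0
      · right
        rw [e, ε5 _ _ h0 hd, ε5 _ _ (by omega) (by omega)] at h
        exact h.resolve_left (by omega))
    rw [e, W5 _ _ (by omega), W5 _ _ hd]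
    have h1 : |w ((d + 2 + c) % 5) + w d| ≤ 1 := by
      interval_cases d <;> interval_cases c <;> simp [w]
    rw [abs_le] at *
    push_cast
    omega

lemma upper (h j a : ℕ) :
    |S (a + 5 ^ j * R (2 * h + 1)) - S a| ≤ max (4 * (h:ℤ) + 2) (2 * h + 2 * j) + 2 := by
  obtain ⟨q, r, hr, rfl⟩ : ∃ q r, r < 5 ^ j ∧ a = 5 ^ j * q + r :=
    ⟨a / 5 ^ j, a % 5 ^ j, Nat.mod_lt _ (by positivity), (Nat.div_add_mod _ _).symm⟩
  have e : 5 ^ j * q + r + 5 ^ j * R (2 * h + 1) = 5 ^ j * (q + R (2 * h + 1)) + r := by ring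
  have h1 := abs_le.1 (L1 (2 * h + 1) q 0 zero_le_one)
  have h2 := L2 (2 * h + 1) q 0 zero_le_one
  have h3 := abs_le.1 (low j q r hr).2
  have h4 := le_max_left (4 * (h:ℤ) + 2) (2 * h + 2 * j)
  have h5 := le_max_right (4 * (h:ℤ) + 2) (2 * h + 2 * j)
  rw [e, S, S, (low j _ r hr).1, (low j _ r hr).1, abs_le]
  simp only [add_zero] at h1 h2
  push_cast at h1 h2
  by_cases hc : ε (5 ^ j * q + r) = ε (5 ^ j * (q + R (2 * h + 1)) + r)
  · rw [← hc]
    rcases ε_pm (5 ^ j * q + r) with a | a <;> rw [a] <;> omega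
  · have h6 := abs_le.1 (h2 (by
      rcases Nat.eq_zero_or_pos q with h0 | h0
      · exact Or.inl h0
      · right
        rwa [(ker j r hr).1 _ h0, (ker j r hr).1 _ (by omega)] at hc))
    rcases ε_pm (5 ^ j * q + r) with a | a <;>
      rcases ε_pm (5 ^ j * (q + R (2 * h + 1)) + r) with a' | a' <;> rw [a, a'] at hc ⊢ <;> omega

lemma wit1 (i j t : ℕ) (ht : 1 ≤ t) :
    S (Q 1 (Q 1 t 1 i) 0 j + 5 ^ j * R i) - S (Q 1 (Q 1 t 1 i) 0 j) = ε t * (-2 * i) := by
  rw [← Q_pow, Q_add, R, Q_add]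
  obtain ⟨a1, a2, a3⟩ := Q_spec (e := 1) (p := 1) ht (by norm_num) i
  obtain ⟨b1, b2, b3⟩ := Q_spec (e := 1) (p := 3) ht (by norm_num) i
  obtain ⟨-, c2, c3⟩ := Q_spec (e := 1) (p := 0) a1 (by norm_num) j
  obtain ⟨-, d2, d3⟩ := Q_spec (e := 1) (p := 0) b1 (by norm_num) j
  simp only [S, add_zero, Nat.reduceAdd]
  rw [c2, c3, d2, d3, a2, a3, b2, b3, W0, Ws 1 (by omega), Ws 3 (by omega)]
  simp [w]; ring

lemma wit2 (h j p d : ℕ) (hp : p + 12 < 25) (hd : d < 5) :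
    S (Q 1 (Q 2 1 p h) d j + 5 ^ j * R (2 * h + 1)) - S (Q 1 (Q 2 1 p h) d j) =
      -(h * (W p + W (p + 12)) + 2 * j * W d) := by
  rw [← Q_pow, Q_add, R_odd, Q_add]
  obtain ⟨a1, a2, a3⟩ := Q_spec (e := 2) (t := 1) (p := p) le_rfl (by omega) h
  obtain ⟨b1, b2, b3⟩ := Q_spec (e := 2) (t := 3) (p := p + 12) (by omega) (by omega) h
  obtain ⟨-, c2, c3⟩ := Q_spec (e := 1) (p := d) a1 (by omega) j
  obtain ⟨-, d2, d3⟩ := Q_spec (e := 1) (p := d) b1 (by omega) j
  simp only [S, add_zero, Nat.reduceAdd]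
  rw [c2, c3, d2, d3, a2, a3, b2, b3, Ws 1 (by omega), Ws 3 (by omega), εs 1 (by omega),
    εs 3 (by omega)]
  simp [w]; ring

theorem ρ_main (h j : ℕ) :
    max (4 * (h:ℤ) + 2) (2 * h + 2 * j) + 1 ≤ ρ (5 ^ j * R (2 * h + 1)) ∧
    (ρ (5 ^ j * R (2 * h + 1)) : ℤ) ≤ max (4 * (h:ℤ) + 2) (2 * h + 2 * j) + 2 + 1 := by
  have w1 : W 1 = 1 := by rw [Ws 1 (by omega)]; rfl
  have w3 : W 3 = -1 := by rw [Ws 3 (by omega)]; rfl
  have w9 : W 9 = 1 := by rw [W5 1 4 (by omega), w1]; rfl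
  have w15 : W 15 = -1 := by rw [W5 3 0 (by omega), w3]; rfl
  have w21 : W 21 = 1 := by rw [W5 4 1 (by omega), Ws 4 (by omega)]; rfl
  apply ρ_bd _ _ _ _ _ (upper h j)
  · rcases max_choice (4 * (h:ℤ) + 2) (2 * h + 2 * j) with e | e <;> rw [e]
    · exact ⟨_, by rw [wit1 _ j 2 (by omega), εs 2 (by omega)]; push_cast; simp; ring⟩
    · exact ⟨_, by rw [wit2 h j 3 3 (by omega) (by omega), w3, w15]; ring⟩
  · rcases max_choice (4 * (h:ℤ) + 2) (2 * h + 2 * j) with e | e <;> rw [e]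
    · exact ⟨_, by rw [wit1 _ j 1 (by omega), εs 1 (by omega)]; push_cast; simp; ring⟩
    · exact ⟨_, by rw [wit2 h j 9 1 (by omega) (by omega), w1, w9, w21]; ring⟩

theorem not_fg : ¬ (Submodule.span ℤ {g : ℕ → ℤ | ∃ e r : ℕ, r < 5 ^ e ∧
    g = fun n => (ρ (5 ^ e * n + r) : ℤ)}).FG := by
  intro hfg
  let g : ℕ → ℕ → ℤ := fun j n => ρ (5 ^ j * n + 0)
  have h1 : (Submodule.span ℤ (Set.range g)).FG := by
    refine hfg.of_le (Submodule.span_mono ?_)
    rintro _ ⟨j, rfl⟩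
    exact ⟨j, 0, by positivity, rfl⟩
  obtain ⟨s, hs1, hs2⟩ := (Submodule.fg_span_iff_fg_span_finset_subset _).1 h1
  obtain ⟨J, hJ⟩ : ∃ J, ∀ f ∈ s, ∃ j ≤ J, g j = f := by
    choose idx hidx using hs1
    obtain ⟨J, hJ⟩ := (Set.finite_range fun f : s => idx f.2).bddAbove
    exact ⟨J, fun f hf => ⟨idx hf, hJ ⟨⟨f, hf⟩, rfl⟩, hidx hf⟩⟩
  have hb : ∀ t, ∀ j : Fin (J + 1), g j (R (2 * (J + 2 * t) + 1)) - 4 * (J + 2 * t : ℕ) ∈
      Finset.Icc (3:ℤ) 5 := by
    intro t j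
    have := ρ_main (J + 2 * t) j
    have hj := j.2
    rw [max_eq_left (by omega)] at this
    simp only [g, add_zero, Finset.mem_Icc]
    omega
  obtain ⟨t1, t2, hne, he⟩ := Finite.exists_ne_map_eq_of_infinite
    (fun t (j : Fin (J + 1)) => (⟨_, hb t j⟩ : Finset.Icc (3:ℤ) 5))
  have key : ∀ f ∈ Submodule.span ℤ (s : Set (ℕ → ℤ)), ∃ σ : ℤ,
      f (R (2 * (J + 2 * t1) + 1)) - f (R (2 * (J + 2 * t2) + 1)) = 8 * σ * (t1 - t2) := by
    intro f hf
    induction hf using Submodule.span_induction with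
    | mem f hf =>
      obtain ⟨j, hj, rfl⟩ := hJ f hf
      have := congrArg Subtype.val (congrFun he ⟨j, by omega⟩)
      refine ⟨1, ?_⟩
      simp only at this
      push_cast at this
      omega
    | zero => exact ⟨0, by simp⟩
    | add f f' _ _ h h' =>
      obtain ⟨σ, h⟩ := h
      obtain ⟨σ', h'⟩ := h'
      exact ⟨σ + σ', by simp only [Pi.add_apply]; linear_combination h + h'⟩
    | smul c f _ h =>
      obtain ⟨σ, h⟩ := h
      exact ⟨c * σ, by simp only [Pi.smul_apply, smul_eq_mul]; linear_combination c * h⟩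
  obtain ⟨σ, hσ⟩ := key (g (J + 2 * t1 + 2 * t2 + 1)) (hs2 ▸ Submodule.subset_span ⟨_, rfl⟩)
  have a1 := ρ_main (J + 2 * t1) (J + 2 * t1 + 2 * t2 + 1)
  have a2 := ρ_main (J + 2 * t2) (J + 2 * t1 + 2 * t2 + 1)
  rw [max_eq_right (by omega)] at a1 a2
  simp only [g, add_zero] at hσ
  have hd : (t1:ℤ) - t2 ≠ 0 := by omega
  have : ∃ m : ℤ, (2 * σ - 1) * (t1 - t2) = m ∧ m ≠ 0 := ⟨_, rfl, mul_ne_zero (by omega) hd⟩
  obtain ⟨m, hm, hm0⟩ := this
  have : 8 * σ * (t1 - t2) = 4 * m + 4 * (t1 - t2) := by rw [← hm]; ring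
  omega

end Pool.Agent.H.MP_293fea_co
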